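import Mathlib

namespace Pool.Agent.H567R3.SD

/-- Two involutions: there is a 2-colouring alternating along both. -/
theorem exists_two_coloring {V : Type*} [Fintype V] [DecidableEq V] (f g : V → V)
    (hf : ∀ v, f (f v) = v) (hg : ∀ v, g (g v) = v) :
    ∃ χ : V → Bool, (∀ v, f v ≠ v → χ (f v) = !χ v) ∧ (∀ v, g v ≠ v → χ (g v) = !χ v) := by
  classical
  -- lift of an involution to a fixed point free involution of `V × Bool`
  let lift : (V → V) → (V × Bool) → (V × Bool) := fun h w =>
    if h w.1 = w.1 then (w.1, !w.2) else (h w.1, w.2)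
  have lift_inv : ∀ h : V → V, (∀ v, h (h v) = v) → Function.Involutive (lift h) := by
    intro h hh w
    by_cases hw : h w.1 = w.1
    · simp [lift, hw]
    · have h1 : lift h w = (h w.1, w.2) := by simp [lift, hw]
      rw [h1]
      have h2 : h (h w.1) ≠ h w.1 := by rw [hh]; exact fun e => hw e.symm
      simp only [lift]
      rw [if_neg h2, hh]
  have lift_ne : ∀ h : V → V, ∀ w, lift h w ≠ w := by
    intro h w e
    by_cases hw : h w.1 = w.1
    · have : lift h w = (w.1, !w.2) := by simp [lift, hw]
      rw [this] at e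
      have := congrArg Prod.snd e
      simp at this
    · have : lift h w = (h w.1, w.2) := by simp [lift, hw]
      rw [this] at e
      exact hw (congrArg Prod.fst e)
  let a : Equiv.Perm (V × Bool) := (lift_inv f hf).toPerm
  let b : Equiv.Perm (V × Bool) := (lift_inv g hg).toPerm
  have haa : a * a = 1 := by
    ext1 w; exact lift_inv f hf w
  have hbb : b * b = 1 := by
    ext1 w; exact lift_inv g hg w
  have hane : ∀ w, a w ≠ w := fun w => lift_ne f w
  have hbne : ∀ w, b w ≠ w := fun w => lift_ne g w
  set σ : Equiv.Perm (V × Bool) := a * b with hσ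
  have ha' : a⁻¹ = a := inv_eq_of_mul_eq_one_left haa
  have hb' : b⁻¹ = b := inv_eq_of_mul_eq_one_left hbb
  have haσ : a * σ = b := by rw [hσ, ← mul_assoc, haa, one_mul]
  have hsemi : SemiconjBy a σ σ⁻¹ := by
    unfold SemiconjBy
    rw [haσ, hσ, mul_inv_rev, ha', hb', mul_assoc, haa, mul_one]
  have hz : ∀ j : ℤ, a * σ ^ j = (σ ^ j)⁻¹ * a := by
    intro j
    have := hsemi.zpow_right j
    unfold SemiconjBy at this
    rw [this, inv_zpow]
  have hnot : ∀ w, ¬ σ.SameCycle w (a w) := by
    rintro w ⟨k, hk⟩
    have h1 : (a * σ ^ k) w = w := by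
      rw [Equiv.Perm.mul_apply, hk, ← Equiv.Perm.mul_apply, haa, Equiv.Perm.one_apply]
    rcases Int.even_or_odd' k with ⟨j, rfl | rfl⟩
    · have h2 : a * σ ^ (2 * j) = (σ ^ j)⁻¹ * a * σ ^ j := by
        rw [two_mul, zpow_add, ← mul_assoc, hz]
      rw [h2, Equiv.Perm.mul_apply, Equiv.Perm.mul_apply] at h1
      have h3 : a ((σ ^ j) w) = (σ ^ j) w := by
        have := congrArg (σ ^ j) h1
        simpa using this
      exact hane _ h3
    · have h2 : a * σ ^ (2 * j + 1) = (σ ^ j)⁻¹ * b * σ ^ j := by
        have e : (2 * j + 1 : ℤ) = j + (1 + j) := by ring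
        rw [e, zpow_add, zpow_add, zpow_one, ← mul_assoc, hz, mul_assoc, ← mul_assoc a, haσ,
          ← mul_assoc]
      rw [h2, Equiv.Perm.mul_apply, Equiv.Perm.mul_apply] at h1
      have h3 : b ((σ ^ j) w) = (σ ^ j) w := by
        have := congrArg (σ ^ j) h1
        simpa using this
      exact hbne _ h3
  let S : Setoid (V × Bool) := Equiv.Perm.SameCycle.setoid σ
  let e := Fintype.equivFin (V × Bool)
  let r : V × Bool → ℕ := fun w => (e (Quotient.out (Quotient.mk S w)) : ℕ)
  have hr1 : ∀ w w', σ.SameCycle w w' → r w = r w' := by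
    intro w w' h
    have : (Quotient.mk S w) = Quotient.mk S w' := Quotient.sound h
    simp only [r, this]
  have hr2 : ∀ w w', r w = r w' → σ.SameCycle w w' := by
    intro w w' h
    have h1 : Quotient.out (Quotient.mk S w) = Quotient.out (Quotient.mk S w') :=
      e.injective (Fin.ext h)
    have h2 : (Quotient.mk S w) = Quotient.mk S w' := by
      rw [← Quotient.out_eq (Quotient.mk S w), h1, Quotient.out_eq]
    exact Quotient.exact h2
  let χ : V × Bool → Bool := fun w => decide (r w < r (a w))
  have haaw : ∀ w, a (a w) = w := fun w => lift_inv f hf w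
  have hχa : ∀ w, χ (a w) = !χ w := by
    intro w
    have hne : r w ≠ r (a w) := fun h => hnot w (hr2 _ _ h)
    simp only [χ, haaw]
    rcases lt_or_gt_of_ne hne with h | h
    · simp [h, h.le]
    · simp [h, h.le]
  have hχσ : ∀ w, χ (σ w) = χ w := by
    intro w
    have h1 : r (σ w) = r w := hr1 _ _ (by
      exact (Equiv.Perm.SameCycle.refl σ w).apply_left)
    have h2 : r (a (σ w)) = r (a w) := by
      apply hr1
      have h3 : a (σ w) = σ⁻¹ (a w) := by
        have := hsemi
        unfold SemiconjBy at this
        have := congrArg (fun p : Equiv.Perm (V × Bool) => p w) this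
        simpa using this
      rw [h3]
      exact ⟨1, by simp⟩
    simp only [χ, h1, h2]
  have hχb : ∀ w, χ (b w) = !χ w := by
    intro w
    have : b w = a (σ w) := by rw [← haσ]; rfl
    rw [this, hχa, hχσ]
  refine ⟨fun v => χ (v, true), ?_, ?_⟩
  · intro v hv
    have h1 : a (v, true) = (f v, true) := by
      show lift f (v, true) = _
      simp [lift, hv]
    have := hχa (v, true)
    rwa [h1] at this
  · intro v hv
    have h1 : b (v, true) = (g v, true) := by
      show lift g (v, true) = _
      simp [lift, hv]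
    have := hχb (v, true)
    rwa [h1] at this

end Pool.Agent.H567R3.SD
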