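import Mathlib

namespace Pool.Agent.H567R3.SD

variable {V : Type*} [Fintype V] [DecidableEq V]

/-- A family of pairwise disjoint 5-sets. -/
def Blocks (B : Finset (Finset V)) : Prop :=
  (∀ b ∈ B, b.card = 5) ∧ ∀ b ∈ B, ∀ c ∈ B, b ≠ c → Disjoint b c

theorem Blocks.card_union {B : Finset (Finset V)} (h : Blocks B) :
    (B.biUnion id).card = 5 * B.card := by
  have h1 := Finset.card_biUnion (s := B) (t := id) (fun x hx y hy hxy => h.2 x hx y hy hxy)
  have h2 : ∑ u ∈ B, (id u).card = ∑ u ∈ B, 5 := Finset.sum_congr rfl (fun x hx => h.1 x hx)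
  rw [h1, h2]
  simp [mul_comm]

omit [Fintype V] [DecidableEq V] in
theorem Blocks.mono {B C : Finset (Finset V)} (h : Blocks B) (hC : C ⊆ B) : Blocks C :=
  ⟨fun b hb => h.1 b (hC hb), fun b hb c hc => h.2 b (hC hb) c (hC hc)⟩

theorem Blocks.card_le {B : Finset (Finset V)} (h : Blocks B) :
    5 * B.card ≤ Fintype.card V := by
  rw [← h.card_union]; exact Finset.card_le_univ _

theorem Blocks.pad {B : Finset (Finset V)} (h : Blocks B) :
    ∃ B', B ⊆ B' ∧ Blocks B' ∧ B'.card = Fintype.card V / 5 := by
  obtain ⟨m, hm⟩ : ∃ m, B.card + m = Fintype.card V / 5 :=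
    ⟨Fintype.card V / 5 - B.card, by have := h.card_le; omega⟩
  induction m generalizing B with
  | zero => exact ⟨B, subset_rfl, h, by omega⟩
  | succ m ih =>
    have h1 : 5 ≤ (Finset.univ \ B.biUnion id).card := by
      rw [Finset.card_sdiff_of_subset (Finset.subset_univ _), h.card_union, Finset.card_univ]
      omega
    obtain ⟨c, hc, hc5⟩ := Finset.exists_subset_card_eq h1
    have hdis : ∀ b ∈ B, Disjoint b c := by
      intro b hb
      rw [Finset.disjoint_left]
      intro x hx hxc
      have := hc hxc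
      simp only [Finset.mem_sdiff, Finset.mem_biUnion, id] at this
      exact this.2 ⟨b, hb, hx⟩
    have hcB : c ∉ B := by
      intro hcB
      have := hdis c hcB
      rw [disjoint_self] at this
      rw [this] at hc5
      simp at hc5
    have h' : Blocks (insert c B) := by
      refine ⟨?_, ?_⟩
      · intro b hb
        rcases Finset.mem_insert.1 hb with rfl | hb
        · exact hc5
        · exact h.1 b hb
      · intro b hb d hd hbd
        rcases Finset.mem_insert.1 hb with hb' | hb'
        · rcases Finset.mem_insert.1 hd with hd' | hd'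
          · exact absurd (hb'.trans hd'.symm) hbd
          · rw [hb']; exact (hdis d hd').symm
        · rcases Finset.mem_insert.1 hd with hd' | hd'
          · rw [hd']; exact hdis b hb'
          · exact h.2 b hb' d hd' hbd
    obtain ⟨B', h1, h2, h3⟩ := ih h' (by rw [Finset.card_insert_of_notMem hcB]; omega)
    exact ⟨B', (Finset.subset_insert _ _).trans h1, h2, h3⟩

/-- Two families of pairwise disjoint 5-sets have a common hitting set of size at most `|V|/5`. -/
theorem exists_hitting {B₁ B₂ : Finset (Finset V)} (h₁ : Blocks B₁) (h₂ : Blocks B₂) :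
    ∃ Z : Finset V, 5 * Z.card ≤ Fintype.card V ∧ (∀ b ∈ B₁, ∃ z ∈ b, z ∈ Z) ∧
      ∀ b ∈ B₂, ∃ z ∈ b, z ∈ Z := by
  classical
  obtain ⟨C₁, hBC₁, hC₁, hc₁⟩ := h₁.pad
  obtain ⟨C₂, hBC₂, hC₂, hc₂⟩ := h₂.pad
  -- Hall
  have hall : ∀ s : Finset {b // b ∈ C₁},
      s.card ≤ (s.biUnion (fun b => C₂.filter (fun c => (b.1 ∩ c).Nonempty))).card := by
    intro s
    set N := s.biUnion (fun b => C₂.filter (fun c => (b.1 ∩ c).Nonempty)) with hN
    have hNsub : N ⊆ C₂ := by
      intro c hc
      simp only [hN, Finset.mem_biUnion, Finset.mem_filter] at hc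
      obtain ⟨b, _, hc, _⟩ := hc
      exact hc
    have hs : Blocks (s.image Subtype.val) := hC₁.mono (by
      intro b hb
      simp only [Finset.mem_image] at hb
      obtain ⟨x, _, rfl⟩ := hb
      exact x.2)
    have hU : ((s.image Subtype.val).biUnion id).card = 5 * s.card := by
      rw [hs.card_union, Finset.card_image_of_injective _ Subtype.val_injective]
    have hcov : (s.image Subtype.val).biUnion id ⊆ N.biUnion id ∪ (Finset.univ \ C₂.biUnion id) := by
      intro x hx
      simp only [Finset.mem_biUnion, Finset.mem_image, id] at hx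
      obtain ⟨b, ⟨b', hb', rfl⟩, hxb⟩ := hx
      by_cases hxc : x ∈ C₂.biUnion id
      · simp only [Finset.mem_biUnion, id] at hxc
        obtain ⟨c, hc, hxc⟩ := hxc
        apply Finset.mem_union_left
        simp only [Finset.mem_biUnion, id]
        refine ⟨c, ?_, hxc⟩
        simp only [hN, Finset.mem_biUnion, Finset.mem_filter]
        exact ⟨b', hb', hc, ⟨x, Finset.mem_inter.2 ⟨hxb, hxc⟩⟩⟩
      · apply Finset.mem_union_right
        simp only [Finset.mem_sdiff, Finset.mem_univ, true_and]
        exact hxc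
    have h1 := Finset.card_le_card hcov
    have h2 := Finset.card_union_le (N.biUnion id) (Finset.univ \ C₂.biUnion id)
    rw [hU] at h1
    rw [(hC₂.mono hNsub).card_union, Finset.card_sdiff_of_subset (Finset.subset_univ _),
      hC₂.card_union, Finset.card_univ] at h2
    omega
  obtain ⟨f, hfinj, hf⟩ := (Finset.all_card_le_biUnion_card_iff_exists_injective _).1 hall
  have hfC : ∀ b, f b ∈ C₂ := fun b => (Finset.mem_filter.1 (hf b)).1
  have hfn : ∀ b : {b // b ∈ C₁}, ∃ z, z ∈ b.1 ∩ f b := fun b => (Finset.mem_filter.1 (hf b)).2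
  choose z hz using hfn
  have hsurj : ∀ c ∈ C₂, ∃ b, f b = c := by
    have : Finset.univ.image f = C₂ := by
      apply Finset.eq_of_subset_of_card_le
      · intro c hc
        obtain ⟨b, _, rfl⟩ := Finset.mem_image.1 hc
        exact hfC b
      · rw [Finset.card_image_of_injective _ hfinj, Finset.card_univ, Fintype.card_coe, hc₁, hc₂]
    intro c hc
    rw [← this] at hc
    obtain ⟨b, _, hb⟩ := Finset.mem_image.1 hc
    exact ⟨b, hb⟩
  refine ⟨Finset.univ.image z, ?_, ?_, ?_⟩
  · have : (Finset.univ.image z).card ≤ C₁.card := by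
      refine Finset.card_image_le.trans ?_
      rw [Finset.card_univ, Fintype.card_coe]
    omega
  · intro b hb
    refine ⟨z ⟨b, hBC₁ hb⟩, (Finset.mem_inter.1 (hz _)).1, Finset.mem_image_of_mem _ (Finset.mem_univ _)⟩
  · intro c hc
    obtain ⟨b, hb⟩ := hsurj c (hBC₂ hc)
    refine ⟨z b, ?_, Finset.mem_image_of_mem _ (Finset.mem_univ _)⟩
    rw [← hb]
    exact (Finset.mem_inter.1 (hz _)).2

end Pool.Agent.H567R3.SD
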