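import Mathlib
import Pool.Agent.H567R3.SD.Hit

namespace Pool.Agent.H567R3.SD

variable {V : Type*} [DecidableEq V]

/-- `F` restricted to `s` has a flexible structure with blocks `B`: whenever `Z` hits all blocks,
there is a pairing such that every set avoiding `Z` and containing at most one vertex of each
pair is dominated (inside `s`) from outside. -/
def Flex (F : SimpleGraph V) (s : Finset V) (B : Finset (Finset V)) : Prop :=
  Blocks B ∧ (∀ b ∈ B, b ⊆ s) ∧ ∀ Z : Finset V, (∀ b ∈ B, ∃ z ∈ b, z ∈ Z) →
    ∃ f : V → V, (∀ v, f (f v) = v) ∧ (∀ v, v ∉ s → f v = v) ∧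
      ∀ T : Finset V, Disjoint T Z → (∀ v ∈ T, f v ≠ v → f v ∉ T) →
        ∀ v ∈ T, v ∈ s → ∃ u, u ∉ T ∧ F.Adj v u

theorem flex_empty (F : SimpleGraph V) : Flex F ∅ ∅ :=
  ⟨⟨by simp, by simp⟩, by simp, fun _ _ => ⟨id, by simp, by simp, by simp⟩⟩

theorem Flex.union {F : SimpleGraph V} {s t : Finset V} {B C : Finset (Finset V)}
    (hs : Flex F s B) (ht : Flex F t C) (hst : Disjoint s t) : Flex F (s ∪ t) (B ∪ C) := by
  obtain ⟨hB, hBs, hf⟩ := hs
  obtain ⟨hC, hCt, hg⟩ := ht
  refine ⟨⟨?_, ?_⟩, ?_, ?_⟩
  · intro b hb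
    rcases Finset.mem_union.1 hb with h | h
    · exact hB.1 b h
    · exact hC.1 b h
  · intro b hb c hc hbc
    rcases Finset.mem_union.1 hb with h | h
    · rcases Finset.mem_union.1 hc with h' | h'
      · exact hB.2 b h c h' hbc
      · exact Finset.disjoint_of_subset_left (hBs b h)
          (Finset.disjoint_of_subset_right (hCt c h') hst)
    · rcases Finset.mem_union.1 hc with h' | h'
      · exact (Finset.disjoint_of_subset_left (hBs c h')
          (Finset.disjoint_of_subset_right (hCt b h) hst)).symm
      · exact hC.2 b h c h' hbc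
  · intro b hb
    rcases Finset.mem_union.1 hb with h | h
    · exact (hBs b h).trans Finset.subset_union_left
    · exact (hCt b h).trans Finset.subset_union_right
  · intro Z hZ
    obtain ⟨f, f1, f2, f3⟩ := hf Z (fun b hb => hZ b (Finset.mem_union_left _ hb))
    obtain ⟨g, g1, g2, g3⟩ := hg Z (fun b hb => hZ b (Finset.mem_union_right _ hb))
    have hgt : ∀ v ∈ t, g v ∈ t := by
      intro v hv
      by_contra h
      have h1 := g2 _ h
      rw [g1] at h1
      rw [← h1] at h
      exact h hv
    have hfs : ∀ v, v ∉ t → f v ∉ t := by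
      intro v hv h
      have h1 : f v ∉ s := fun h' => (Finset.disjoint_left.1 hst h' h)
      have h2 := f2 _ h1
      rw [f1] at h2
      rw [← h2] at h
      exact hv h
    refine ⟨fun v => if v ∈ t then g v else f v, ?_, ?_, ?_⟩
    · intro v
      by_cases hv : v ∈ t
      · simp only [hv, if_true, hgt v hv, g1]
      · simp only [hv, if_false, hfs v hv, f1]
    · intro v hv
      rw [Finset.notMem_union] at hv
      simp only [hv.2, if_false]
      exact f2 v hv.1
    · intro T hTZ hT v hvT hv
      rcases Finset.mem_union.1 hv with h | h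
      · apply f3 T hTZ _ v hvT h
        intro w hw hfw
        have hws : w ∈ s := by
          by_contra hws
          exact hfw (f2 w hws)
        have hwt : w ∉ t := fun h' => Finset.disjoint_left.1 hst hws h'
        have := hT w hw
        simp only [hwt, if_false] at this
        exact this hfw
      · apply g3 T hTZ _ v hvT h
        intro w hw hgw
        have hwt : w ∈ t := by
          by_contra hwt
          exact hgw (g2 w hwt)
        have := hT w hw
        simp only [hwt, if_true] at this
        exact this hgw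

theorem flex_pair {F : SimpleGraph V} {a b : V} (hab : F.Adj a b) : Flex F {a, b} ∅ := by
  have hne : a ≠ b := hab.ne
  refine ⟨⟨by simp, by simp⟩, by simp, fun Z _ => ⟨Equiv.swap a b, by simp, ?_, ?_⟩⟩
  · intro v hv
    simp only [Finset.mem_insert, Finset.mem_singleton, not_or] at hv
    exact Equiv.swap_apply_of_ne_of_ne hv.1 hv.2
  · intro T _ hT v hvT hv
    simp only [Finset.mem_insert, Finset.mem_singleton] at hv
    rcases hv with rfl | rfl
    · refine ⟨b, ?_, hab⟩
      have := hT v hvT
      rw [Equiv.swap_apply_left] at this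
      exact this hne.symm
    · refine ⟨a, ?_, hab.symm⟩
      have := hT v hvT
      rw [Equiv.swap_apply_right] at this
      exact this hne

theorem flex_triangle {F : SimpleGraph V} {a b c : V} (hab : F.Adj a b) (hbc : F.Adj b c)
    (hca : F.Adj c a) : Flex F {a, b, c} ∅ := by
  have hne : a ≠ b := hab.ne
  refine ⟨⟨by simp, by simp⟩, by simp, fun Z _ => ⟨Equiv.swap a b, by simp, ?_, ?_⟩⟩
  · intro v hv
    simp only [Finset.mem_insert, Finset.mem_singleton, not_or] at hv
    exact Equiv.swap_apply_of_ne_of_ne hv.1 hv.2.1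
  · intro T _ hT v hvT hv
    simp only [Finset.mem_insert, Finset.mem_singleton] at hv
    rcases hv with rfl | rfl | rfl
    · refine ⟨b, ?_, hab⟩
      have := hT v hvT
      rw [Equiv.swap_apply_left] at this
      exact this hne.symm
    · refine ⟨a, ?_, hab.symm⟩
      have := hT v hvT
      rw [Equiv.swap_apply_right] at this
      exact this hne
    · by_cases ha : a ∈ T
      · refine ⟨b, ?_, hbc.symm⟩
        have := hT a ha
        rw [Equiv.swap_apply_left] at this
        exact this hne.symm
      · exact ⟨a, ha, hca⟩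

/-- two disjoint transpositions as a function -/
theorem two_swaps {p q r t : V} (hpq : p ≠ q) (hpr : p ≠ r) (hpt : p ≠ t) (hqr : q ≠ r)
    (hqt : q ≠ t) (hrt : r ≠ t) : ∃ f : V → V, (∀ v, f (f v) = v) ∧
      (∀ v, v ≠ p → v ≠ q → v ≠ r → v ≠ t → f v = v) ∧ f p = q ∧ f q = p ∧ f r = t ∧ f t = r := by
  refine ⟨fun v => if v = p then q else if v = q then p else if v = r then t else
    if v = t then r else v, ?_, ?_, ?_, ?_, ?_, ?_⟩
  · intro v
    by_cases h1 : v = p
    · simp [h1, hpq.symm]
    by_cases h2 : v = q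
    · simp [h2, hpq.symm]
    by_cases h3 : v = r
    · simp [h3, hpr.symm, hqr.symm, hpt.symm, hqt.symm, hrt.symm]
    by_cases h4 : v = t
    · simp [h4, hpt.symm, hqt.symm, hrt.symm, hpr.symm, hqr.symm]
    simp [h1, h2, h3, h4]
  · intro v h1 h2 h3 h4
    simp [h1, h2, h3, h4]
  · simp
  · simp [hpq.symm]
  · simp [hpr.symm, hqr.symm]
  · simp [hpt.symm, hqt.symm, hrt.symm]

theorem flex_p5 {F : SimpleGraph V} {x a y b z : V} (hxa : F.Adj x a) (hay : F.Adj a y)
    (hyb : F.Adj y b) (hbz : F.Adj b z) (hnd : [x, a, y, b, z].Nodup) :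
    Flex F {x, a, y, b, z} {{x, a, y, b, z}} := by
  simp only [List.nodup_cons, List.mem_cons, List.not_mem_nil, or_false, not_or, not_false_eq_true,
    List.nodup_nil, and_true] at hnd
  obtain ⟨⟨h1, h2, h3, h4⟩, ⟨h5, h6, h7⟩, ⟨h8, h9⟩, h10⟩ := hnd
  refine ⟨⟨?_, ?_⟩, by simp, ?_⟩
  · intro c hc
    rw [Finset.mem_singleton] at hc
    rw [hc]
    have : ({x, a, y, b, z} : Finset V) = [x, a, y, b, z].toFinset := by simp
    rw [this, List.toFinset_card_of_nodup]
    · rfl
    · simp [h1, h2, h3, h4, h5, h6, h7, h8, h9, h10]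
  · intro c hc d hd hcd
    rw [Finset.mem_singleton] at hc hd
    exact absurd (hc.trans hd.symm) hcd
  · intro Z hZ
    obtain ⟨w, hw, hwZ⟩ := hZ _ (Finset.mem_singleton_self _)
    have key : ∀ p q r t : V, p ≠ q → p ≠ r → p ≠ t → q ≠ r → q ≠ t → r ≠ t →
        p ∈ ({x, a, y, b, z} : Finset V) → q ∈ ({x, a, y, b, z} : Finset V) →
        r ∈ ({x, a, y, b, z} : Finset V) → t ∈ ({x, a, y, b, z} : Finset V) →
        F.Adj p q → F.Adj r t →
        (∀ v ∈ ({x, a, y, b, z} : Finset V), v = p ∨ v = q ∨ v = r ∨ v = t ∨ v = w ∨ F.Adj v w) →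
        ∃ f : V → V, (∀ v, f (f v) = v) ∧ (∀ v, v ∉ ({x, a, y, b, z} : Finset V) → f v = v) ∧
        ∀ T : Finset V, Disjoint T Z → (∀ v ∈ T, f v ≠ v → f v ∉ T) →
        ∀ v ∈ T, v ∈ ({x, a, y, b, z} : Finset V) → ∃ u, u ∉ T ∧ F.Adj v u := by
      intro p q r t k1 k2 k3 k4 k5 k6 mp mq mr mt apq art hall
      obtain ⟨f, f1, f2, f3, f4, f5, f6⟩ := two_swaps k1 k2 k3 k4 k5 k6
      refine ⟨f, f1, ?_, ?_⟩
      · intro v hv
        apply f2
        · rintro rfl; exact hv mp
        · rintro rfl; exact hv mq
        · rintro rfl; exact hv mr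
        · rintro rfl; exact hv mt
      · intro T hTZ hT v hvT hv
        have hwT : w ∉ T := fun h => Finset.disjoint_left.1 hTZ h hwZ
        rcases hall v hv with rfl | rfl | rfl | rfl | rfl | h
        · refine ⟨q, ?_, apq⟩
          have := hT v hvT
          rw [f3] at this
          exact this k1.symm
        · refine ⟨p, ?_, apq.symm⟩
          have := hT v hvT
          rw [f4] at this
          exact this k1
        · refine ⟨t, ?_, art⟩
          have := hT v hvT
          rw [f5] at this
          exact this k6.symm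
        · refine ⟨r, ?_, art.symm⟩
          have := hT v hvT
          rw [f6] at this
          exact this k6
        · exact absurd hvT hwT
        · exact ⟨w, hwT, h⟩
    -- one pair only
    have key1 : ∀ r t : V, r ≠ t →
        r ∈ ({x, a, y, b, z} : Finset V) → t ∈ ({x, a, y, b, z} : Finset V) →
        F.Adj r t →
        (∀ v ∈ ({x, a, y, b, z} : Finset V), v = r ∨ v = t ∨ v = w ∨ F.Adj v w) →
        ∃ f : V → V, (∀ v, f (f v) = v) ∧ (∀ v, v ∉ ({x, a, y, b, z} : Finset V) → f v = v) ∧
        ∀ T : Finset V, Disjoint T Z → (∀ v ∈ T, f v ≠ v → f v ∉ T) →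
        ∀ v ∈ T, v ∈ ({x, a, y, b, z} : Finset V) → ∃ u, u ∉ T ∧ F.Adj v u := by
      intro r t k6 mr mt art hall
      refine ⟨Equiv.swap r t, by simp, ?_, ?_⟩
      · intro v hv
        apply Equiv.swap_apply_of_ne_of_ne
        · rintro rfl; exact hv mr
        · rintro rfl; exact hv mt
      · intro T hTZ hT v hvT hv
        have hwT : w ∉ T := fun h => Finset.disjoint_left.1 hTZ h hwZ
        rcases hall v hv with rfl | rfl | rfl | h
        · refine ⟨t, ?_, art⟩
          have := hT v hvT
          rw [Equiv.swap_apply_left] at this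
          exact this k6.symm
        · refine ⟨r, ?_, art.symm⟩
          have := hT v hvT
          rw [Equiv.swap_apply_right] at this
          exact this k6
        · exact absurd hvT hwT
        · exact ⟨w, hwT, h⟩
    simp only [Finset.mem_insert, Finset.mem_singleton] at hw key key1 ⊢
    rcases hw with rfl | rfl | rfl | rfl | rfl
    · apply key a y b z h5 h6 h7 h8 h9 h10 (by simp) (by simp) (by simp) (by simp) hay hbz
      rintro v (rfl | rfl | rfl | rfl | rfl) <;> simp
    · apply key1 b z h10 (by simp) (by simp) hbz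
      rintro v (rfl | rfl | rfl | rfl | rfl) <;> simp [hxa, hay.symm]
    · apply key x a b z h1 h3 h4 h6 h7 h10 (by simp) (by simp) (by simp) (by simp) hxa hbz
      rintro v (rfl | rfl | rfl | rfl | rfl) <;> simp
    · apply key1 x a h1 (by simp) (by simp) hxa
      rintro v (rfl | rfl | rfl | rfl | rfl) <;> simp [hyb, hbz.symm]
    · apply key x a y b h1 h2 h3 h5 h6 h8 (by simp) (by simp) (by simp) (by simp) hxa hyb
      rintro v (rfl | rfl | rfl | rfl | rfl) <;> simp

/-- Paths with 0, 2 or at least 4 vertices are flexible. -/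
theorem flex_path (F : SimpleGraph V) : ∀ (n : ℕ) (l : List V), l.length ≤ n → l.Nodup →
    l.IsChain F.Adj → l.length ≠ 1 → l.length ≠ 3 → ∃ B, Flex F l.toFinset B := by
  intro n
  induction n with
  | zero =>
    intro l hl _ _ _ _
    have : l = [] := List.length_eq_zero_iff.1 (by omega)
    subst this
    exact ⟨∅, by simpa using flex_empty F⟩
  | succ n ih =>
    intro l hl hnd hch h1 h3
    match l, hl, hnd, hch, h1, h3 with
    | [], _, _, _, _, _ => exact ⟨∅, by simpa using flex_empty F⟩
    | [a], _, _, _, h1, _ => simp at h1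
    | [x, a, y, b, z], _, hnd, hch, _, _ =>
      simp only [List.isChain_cons_cons, List.isChain_singleton, and_true] at hch
      refine ⟨{{x, a, y, b, z}}, ?_⟩
      have := flex_p5 hch.1 hch.2.1 hch.2.2.1 hch.2.2.2 hnd
      simpa using this
    | a :: b :: l', hl, hnd, hch, h1, h3 =>
      by_cases h5 : l'.length = 3
      · match l', h5, hnd, hch with
        | [y, c, z], _, hnd, hch =>
          simp only [List.isChain_cons_cons, List.isChain_singleton, and_true] at hch
          refine ⟨{{a, b, y, c, z}}, ?_⟩
          have := flex_p5 hch.1 hch.2.1 hch.2.2.1 hch.2.2.2 hnd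
          simpa using this
      · have hab : F.Adj a b := (List.isChain_cons_cons.1 hch).1
        have hch' : l'.IsChain F.Adj := by
          have := (List.isChain_cons_cons.1 hch).2
          exact this.tail
        have hnd' : l'.Nodup := (List.nodup_cons.1 (List.nodup_cons.1 hnd).2).2
        simp only [List.length_cons] at hl h1 h3
        obtain ⟨B, hB⟩ := ih l' (by omega) hnd' hch' (by omega) h5
        refine ⟨∅ ∪ B, ?_⟩
        have hdis : Disjoint ({a, b} : Finset V) l'.toFinset := by
          rw [Finset.disjoint_left]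
          intro v hv hv'
          rw [List.mem_toFinset] at hv'
          simp only [Finset.mem_insert, Finset.mem_singleton] at hv
          rcases hv with rfl | rfl
          · exact (List.nodup_cons.1 hnd).1 (List.mem_cons_of_mem _ hv')
          · exact (List.nodup_cons.1 (List.nodup_cons.1 hnd).2).1 hv'
        have := (flex_pair hab).union hB hdis
        have e : (a :: b :: l').toFinset = {a, b} ∪ l'.toFinset := by
          ext v; simp
        rw [e]
        exact this

end Pool.Agent.H567R3.SD
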