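import Mathlib
import Pool.Agent.H567R3.SD.Color
import Pool.Agent.H567R3.SD.Hit
import Pool.Agent.H567R3.SD.Flex

namespace Pool.Agent.H567R3.SD

variable {V : Type*} [DecidableEq V]

/-- A cycle of a permutation along edges is flexible. -/
theorem flex_cycle [Fintype V] (F : SimpleGraph V) (π : Equiv.Perm V) (hπ : ∀ v, F.Adj v (π v))
    (x : V) : ∃ B, Flex F (Finset.univ.filter (fun y => π.SameCycle x y)) B := by
  classical
  have hper : x ∈ Function.periodicPts π :=
    Function.mem_periodicPts.2 ⟨orderOf π, orderOf_pos π, by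
      unfold Function.IsPeriodicPt Function.IsFixedPt
      rw [← Equiv.Perm.coe_pow, pow_orderOf_eq_one]; rfl⟩
  set n := Function.minimalPeriod π x with hn
  have hn0 : 0 < n := Function.minimalPeriod_pos_of_mem_periodicPts hper
  have hnx : (π)^[n] x = x := Function.iterate_minimalPeriod
  set l : List V := (List.range n).map (fun i => (π)^[i] x) with hl
  have hlen : l.length = n := by simp [hl]
  have hnd : l.Nodup := by
    rw [hl]
    apply List.Nodup.map_on _ List.nodup_range
    intro i hi j hj hij
    rw [List.mem_range] at hi hj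
    exact Function.iterate_injOn_Iio_minimalPeriod hi hj hij
  have hch : l.IsChain F.Adj := by
    rw [hl, List.isChain_map, List.isChain_range]
    intro m _
    show F.Adj ((π)^[m] x) ((π)^[m.succ] x)
    rw [Function.iterate_succ_apply']
    exact hπ _
  have hset : l.toFinset = Finset.univ.filter (fun y => π.SameCycle x y) := by
    ext y
    simp only [hl, List.mem_toFinset, List.mem_map, List.mem_range, Finset.mem_filter,
      Finset.mem_univ, true_and]
    constructor
    · rintro ⟨i, _, rfl⟩
      refine ⟨i, ?_⟩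
      rw [zpow_natCast, Equiv.Perm.coe_pow]
    · intro h
      obtain ⟨i, hi⟩ := h.exists_nat_pow_eq
      refine ⟨i % n, Nat.mod_lt _ hn0, ?_⟩
      rw [← hi, Equiv.Perm.coe_pow, hn, Function.iterate_mod_minimalPeriod_eq]
  rw [← hset]
  have h1 : l.length ≠ 1 := by
    rw [hlen]
    intro h
    rw [h] at hnx
    simp only [Function.iterate_one] at hnx
    have := hπ x
    rw [hnx] at this
    exact F.loopless.irrefl _ this
  by_cases h3 : l.length = 3
  · rw [hlen] at h3
    rw [h3] at hnx
    have hl3 : l = [x, π x, π (π x)] := by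
      rw [hl, h3]
      simp [List.range_succ]
    rw [hl3]
    refine ⟨∅, ?_⟩
    have hca : F.Adj (π (π x)) x := by
      have := hπ (π (π x))
      simp only [Function.iterate_succ, Function.iterate_zero, Function.comp_apply, id] at hnx
      rwa [hnx] at this
    have := flex_triangle (hπ x) (hπ (π x)) hca
    simpa using this
  · exact flex_path F l.length l le_rfl hnd hch h1 h3

theorem flex_perm [Fintype V] (F : SimpleGraph V) (π : Equiv.Perm V)
    (hπ : ∀ v, F.Adj v (π v)) : ∃ B, Flex F Finset.univ B := by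
  classical
  suffices h : ∀ (m : ℕ) (s : Finset V), s.card ≤ m → (∀ v w, v ∈ s → π.SameCycle v w → w ∈ s) →
      ∃ B, Flex F s B from h _ Finset.univ le_rfl (fun _ _ _ _ => Finset.mem_univ _)
  intro m
  induction m with
  | zero =>
    intro s hs _
    have : s = ∅ := Finset.card_eq_zero.1 (by omega)
    subst this
    exact ⟨∅, flex_empty F⟩
  | succ m ih =>
    intro s hs hcl
    by_cases hse : s = ∅
    · subst hse
      exact ⟨∅, flex_empty F⟩
    · obtain ⟨x, hx⟩ := Finset.nonempty_iff_ne_empty.2 hse
      obtain ⟨B, hB⟩ := flex_cycle F π hπ x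
      set C := Finset.univ.filter (fun y => π.SameCycle x y) with hC
      have hCs : C ⊆ s := by
        intro y hy
        rw [hC, Finset.mem_filter] at hy
        exact hcl x y hx hy.2
      have hxC : x ∈ C := by
        rw [hC, Finset.mem_filter]
        exact ⟨Finset.mem_univ _, Equiv.Perm.SameCycle.refl _ _⟩
      have hcard : (s \ C).card ≤ m := by
        have : (s \ C).card < s.card := by
          apply Finset.card_lt_card
          refine ⟨Finset.sdiff_subset, fun h => ?_⟩
          exact (Finset.mem_sdiff.1 (h hx)).2 hxC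
        omega
      obtain ⟨B', hB'⟩ := ih (s \ C) hcard (by
        intro v w hv hvw
        rw [Finset.mem_sdiff] at hv ⊢
        refine ⟨hcl v w hv.1 hvw, fun hw => hv.2 ?_⟩
        rw [hC, Finset.mem_filter] at hw ⊢
        exact ⟨Finset.mem_univ _, hw.2.trans hvw.symm⟩)
      refine ⟨B' ∪ B, ?_⟩
      have := hB'.union hB Finset.sdiff_disjoint
      rwa [Finset.sdiff_union_of_subset hCs] at this

/-- Hall's condition for the neighbourhoods of `F`. -/
def HallCondition [Fintype V] (F : SimpleGraph V) : Prop :=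
  ∀ X : Finset V, ∃ Y : Finset V, X.card ≤ Y.card ∧ ∀ y ∈ Y, ∃ x ∈ X, F.Adj x y

theorem flex_hall [Fintype V] (F : SimpleGraph V) (h : HallCondition F) :
    ∃ B, Flex F Finset.univ B := by
  classical
  have hall : ∀ s : Finset V, s.card ≤ (s.biUnion (fun v => Finset.univ.filter (F.Adj v))).card := by
    intro s
    obtain ⟨Y, hY, hYs⟩ := h s
    refine hY.trans (Finset.card_le_card ?_)
    intro y hy
    obtain ⟨x, hx, hxy⟩ := hYs y hy
    simp only [Finset.mem_biUnion, Finset.mem_filter, Finset.mem_univ, true_and]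
    exact ⟨x, hx, hxy⟩
  obtain ⟨f, hf, hft⟩ := (Finset.all_card_le_biUnion_card_iff_exists_injective _).1 hall
  have hbij : Function.Bijective f := Finite.injective_iff_bijective.1 hf
  exact flex_perm F (Equiv.ofBijective f hbij) (fun v => (Finset.mem_filter.1 (hft v)).2)

/-- `p` is the vertex list of a path of `F` with two or at least four vertices, or of a
triangle of `F`. -/
def IsPiece (F : SimpleGraph V) (p : List V) : Prop :=
  p.Nodup ∧ p.IsChain F.Adj ∧
    (p.length = 2 ∨ 4 ≤ p.length ∨ ∃ a b c, p = [a, b, c] ∧ F.Adj c a)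

/-- The vertex set is partitioned into pieces. -/
def HasPieceFactor (F : SimpleGraph V) : Prop :=
  ∃ L : List (List V), (∀ p ∈ L, IsPiece F p) ∧ L.flatten.Nodup ∧ ∀ v, v ∈ L.flatten

theorem flex_piece (F : SimpleGraph V) (p : List V) (hp : IsPiece F p) :
    ∃ B, Flex F p.toFinset B := by
  obtain ⟨hnd, hch, h | h | ⟨a, b, c, rfl, hca⟩⟩ := hp
  · exact flex_path F p.length p le_rfl hnd hch (by omega) (by omega)
  · exact flex_path F p.length p le_rfl hnd hch (by omega) (by omega)
  · simp only [List.isChain_cons_cons, List.isChain_singleton, and_true] at hch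
    refine ⟨∅, ?_⟩
    have := flex_triangle hch.1 hch.2 hca
    simpa using this

theorem flex_factor [Fintype V] (F : SimpleGraph V) (h : HasPieceFactor F) :
    ∃ B, Flex F Finset.univ B := by
  obtain ⟨L, hL, hnd, hall⟩ := h
  have key : ∀ L : List (List V), (∀ p ∈ L, IsPiece F p) → L.flatten.Nodup →
      ∃ B, Flex F L.flatten.toFinset B := by
    intro L
    induction L with
    | nil => intro _ _; exact ⟨∅, by simpa using flex_empty F⟩
    | cons p L ih =>
      intro hL hnd
      rw [List.flatten_cons] at hnd ⊢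
      rw [List.nodup_append'] at hnd
      obtain ⟨B, hB⟩ := flex_piece F p (hL p List.mem_cons_self)
      obtain ⟨C, hC⟩ := ih (fun q hq => hL q (List.mem_cons_of_mem _ hq)) hnd.2.1
      refine ⟨B ∪ C, ?_⟩
      rw [List.toFinset_append]
      apply hB.union hC
      rw [List.disjoint_toFinset_iff_disjoint]
      exact hnd.2.2
  obtain ⟨B, hB⟩ := key L hL hnd
  refine ⟨B, ?_⟩
  have : L.flatten.toFinset = Finset.univ := by
    ext v; simp [hall v]
  rwa [this] at hB

theorem main_flex [Fintype V] (F₁ F₂ : SimpleGraph V) {B₁ B₂ : Finset (Finset V)}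
    (h₁ : Flex F₁ Finset.univ B₁) (h₂ : Flex F₂ Finset.univ B₂) :
    ∃ S : Finset V, 5 * S.card ≤ 3 * Fintype.card V ∧
      ∀ v, (v ∈ S ∨ ∃ u ∈ S, F₁.Adj v u) ∧ (v ∈ S ∨ ∃ u ∈ S, F₂.Adj v u) := by
  classical
  obtain ⟨hB₁, -, H₁⟩ := h₁
  obtain ⟨hB₂, -, H₂⟩ := h₂
  obtain ⟨Z, hZc, hZ₁, hZ₂⟩ := exists_hitting hB₁ hB₂
  obtain ⟨f, f1, -, f3⟩ := H₁ Z hZ₁
  obtain ⟨g, g1, -, g3⟩ := H₂ Z hZ₂
  obtain ⟨χ, hχf, hχg⟩ := exists_two_coloring f g f1 g1
  -- for each colour the class outside `Z`
  have good : ∀ c : Bool, ∀ T : Finset V, T = (Zᶜ).filter (fun v => χ v = c) →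
      ∀ v, (v ∈ Tᶜ ∨ ∃ u ∈ Tᶜ, F₁.Adj v u) ∧ (v ∈ Tᶜ ∨ ∃ u ∈ Tᶜ, F₂.Adj v u) := by
    intro c T hT v
    have hTZ : Disjoint T Z := by
      rw [Finset.disjoint_left]
      intro x hx hxZ
      rw [hT, Finset.mem_filter, Finset.mem_compl] at hx
      exact hx.1 hxZ
    by_cases hv : v ∈ T
    · constructor
      · right
        obtain ⟨u, hu, huv⟩ := f3 T hTZ (by
          intro w hw hfw hw'
          rw [hT, Finset.mem_filter] at hw hw'
          have := hχf w hfw
          rw [hw.2, hw'.2] at this
          cases c <;> simp at this) v hv (Finset.mem_univ _)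
        exact ⟨u, Finset.mem_compl.2 hu, huv⟩
      · right
        obtain ⟨u, hu, huv⟩ := g3 T hTZ (by
          intro w hw hgw hw'
          rw [hT, Finset.mem_filter] at hw hw'
          have := hχg w hgw
          rw [hw.2, hw'.2] at this
          cases c <;> simp at this) v hv (Finset.mem_univ _)
        exact ⟨u, Finset.mem_compl.2 hu, huv⟩
    · exact ⟨Or.inl (Finset.mem_compl.2 hv), Or.inl (Finset.mem_compl.2 hv)⟩
  have hsum : ((Zᶜ).filter (fun v => χ v = true)).card + ((Zᶜ).filter (fun v => χ v = false)).card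
      = Zᶜ.card := by
    have := Finset.card_filter_add_card_filter_not (s := Zᶜ) (fun v => χ v = true)
    simpa using this
  have hZcc := Finset.card_compl Z
  have hZle := Finset.card_le_univ Z
  rcases le_total ((Zᶜ).filter (fun v => χ v = true)).card
    ((Zᶜ).filter (fun v => χ v = false)).card with hle | hle
  · refine ⟨((Zᶜ).filter (fun v => χ v = false))ᶜ, ?_, good false _ rfl⟩
    rw [Finset.card_compl]
    have := Finset.card_le_univ ((Zᶜ).filter (fun v => χ v = false))
    omega
  · refine ⟨((Zᶜ).filter (fun v => χ v = true))ᶜ, ?_, good true _ rfl⟩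
    rw [Finset.card_compl]
    have := Finset.card_le_univ ((Zᶜ).filter (fun v => χ v = true))
    omega

end Pool.Agent.H567R3.SD
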